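import Mathlib
import Pool.Agent.Y734.R.Stms

/-!
# Project Y734/R, job VAL: a toric family gives a valuation (helper170)
-/

set_option autoImplicit false

namespace Pool.Agent.Y734.R.VAL

open Pool.Agent.Y734.M Pool.Agent.Y734.R MvPolynomial

section val

variable {F k ι : Type} [Field F] [Algebra ℚ F] [Field k] [Algebra ℚ k] [Fintype ι] (w : ι → F)
  (u : ι → k) (α : ι → ℤ)

/-- the weight of an exponent -/
def wt (μ : ι →₀ ℕ) : ℤ := ∑ i, (μ i : ℤ) * α i

theorem wt_zero : wt α 0 = 0 := by simp [wt]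

theorem wt_add (μ ν : ι →₀ ℕ) : wt α (μ + ν) = wt α μ + wt α ν := by
  unfold wt
  rw [← Finset.sum_add_distrib]
  refine Finset.sum_congr rfl fun i _ => ?_
  rw [Finsupp.add_apply]
  push_cast
  ring

theorem wt_single (i : ι) : wt α (Finsupp.single i 1) = α i := by
  classical
  unfold wt
  rw [Finset.sum_eq_single i]
  · simp
  · intro j _ hj
    rw [Finsupp.single_apply, if_neg (Ne.symm hj)]
    simp
  · intro h
    exact absurd (Finset.mem_univ i) h

/-- all weights are at least `e` -/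
def Vn (e : ℤ) (G : MvPolynomial ι ℚ) : Prop := ∀ g ∈ G.support, e ≤ wt α g

variable {α}

theorem Vn_add {e : ℤ} {G H : MvPolynomial ι ℚ} (hG : Vn α e G) (hH : Vn α e H) :
    Vn α e (G + H) := by
  classical
  intro g hg
  rcases Finset.mem_union.1 (MvPolynomial.support_add hg) with h | h
  · exact hG g h
  · exact hH g h

theorem Vn_zero (e : ℤ) : Vn α e (0 : MvPolynomial ι ℚ) := by
  intro g hg
  simp at hg

theorem Vn_neg {e : ℤ} {G : MvPolynomial ι ℚ} (hG : Vn α e G) : Vn α e (-G) := by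
  intro g hg
  rw [MvPolynomial.support_neg] at hg
  exact hG g hg

theorem Vn_mul {e e' : ℤ} {G H : MvPolynomial ι ℚ} (hG : Vn α e G) (hH : Vn α e' H) :
    Vn α (e + e') (G * H) := by
  classical
  intro g hg
  obtain ⟨a, ha, b, hb, rfl⟩ := Finset.mem_add.1 (MvPolynomial.support_mul G H hg)
  rw [wt_add]
  exact add_le_add (hG a ha) (hH b hb)

theorem Vn_mono {e e' : ℤ} (h : e ≤ e') {G : MvPolynomial ι ℚ} (hG : Vn α e' G) : Vn α e G :=
  fun g hg => h.trans (hG g hg)

theorem Vn_monomial (d : ι →₀ ℕ) (c : ℚ) : Vn α (wt α d) (monomial d c) := by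
  classical
  intro g hg
  have := MvPolynomial.support_monomial_subset hg
  rw [Finset.mem_singleton] at this
  rw [this]

variable (α)

/-- the monomial in the `w i` -/
def mw (d : ι →₀ ℕ) : F := ∏ i, w i ^ d i

theorem mw_add (d d' : ι →₀ ℕ) : mw w (d + d') = mw w d * mw w d' := by
  unfold mw
  rw [← Finset.prod_mul_distrib]
  exact Finset.prod_congr rfl fun i _ => by rw [Finsupp.add_apply, pow_add]

theorem mw_zero : mw w 0 = 1 := by simp [mw]

theorem aeval_mon (d : ι →₀ ℕ) : aeval w (monomial d (1 : ℚ)) = mw w d := by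
  rw [aeval_monomial, map_one, one_mul, Finsupp.prod_fintype _ _ (fun i => pow_zero _)]
  rfl

/-- representations -/
def Rep (c : ℤ) (x : F) : Prop := ∃ (d : ι →₀ ℕ) (G : MvPolynomial ι ℚ),
  x * mw w d = aeval w G ∧ Vn α (wt α d + c) G

variable {w α}

theorem Rep_zero (c : ℤ) : Rep w α c 0 := ⟨0, 0, by rw [zero_mul, map_zero], Vn_zero _⟩

theorem Rep_one : Rep w α 0 1 := by
  refine ⟨0, 1, by rw [mw_zero, map_one, one_mul], ?_⟩
  rw [wt_zero, add_zero]
  have h := Vn_monomial (α := α) 0 1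
  rw [wt_zero] at h
  exact h

theorem Rep_neg {c : ℤ} {x : F} (h : Rep w α c x) : Rep w α c (-x) := by
  obtain ⟨d, G, h1, h2⟩ := h
  exact ⟨d, -G, by rw [neg_mul, h1, map_neg], Vn_neg h2⟩

theorem Rep_add {c : ℤ} {x x' : F} (h : Rep w α c x) (h' : Rep w α c x') :
    Rep w α c (x + x') := by
  obtain ⟨d, G, h1, h2⟩ := h
  obtain ⟨d', G', h1', h2'⟩ := h'
  refine ⟨d + d', G * monomial d' 1 + G' * monomial d 1, ?_, Vn_add ?_ ?_⟩
  · rw [map_add, map_mul, map_mul, aeval_mon, aeval_mon, ← h1, ← h1', mw_add]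
    ring
  · refine Vn_mono (le_of_eq ?_) (Vn_mul h2 (Vn_monomial d' 1))
    rw [wt_add]
    ring
  · refine Vn_mono (le_of_eq ?_) (Vn_mul h2' (Vn_monomial d 1))
    rw [wt_add]
    ring

theorem Rep_mul {c c' : ℤ} {x x' : F} (h : Rep w α c x) (h' : Rep w α c' x') :
    Rep w α (c + c') (x * x') := by
  obtain ⟨d, G, h1, h2⟩ := h
  obtain ⟨d', G', h1', h2'⟩ := h'
  refine ⟨d + d', G * G', ?_, Vn_mono (le_of_eq ?_) (Vn_mul h2 h2')⟩
  · rw [map_mul, ← h1, ← h1', mw_add]
    ring
  · rw [wt_add]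
    ring

theorem Rep_ratio (hw : ∀ i, w i ≠ 0) (i j : ι) (c : ℤ) (h : α j + c ≤ α i) :
    Rep w α c (w i / w j) := by
  refine ⟨Finsupp.single j 1, monomial (Finsupp.single i 1) 1, ?_, ?_⟩
  · rw [aeval_mon]
    have e : ∀ i, mw w (Finsupp.single i 1) = w i := by
      classical
      intro i
      unfold mw
      rw [Finset.prod_eq_single i]
      · simp
      · intro j _ hj
        rw [Finsupp.single_apply, if_neg (Ne.symm hj), pow_zero]
      · intro h
        exact absurd (Finset.mem_univ i) h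
    rw [e, e, div_mul_cancel₀ _ (hw j)]
  · refine Vn_mono ?_ (Vn_monomial _ _)
    rw [wt_single, wt_single]
    exact h

variable (w α)

/-- the ring -/
def Bs : Subring F where
  carrier := {x | Rep w α 0 x}
  mul_mem' := fun {a b} ha hb => by
    have := Rep_mul (c := 0) (c' := 0) ha hb
    rwa [add_zero] at this
  one_mem' := Rep_one
  add_mem' := fun ha hb => Rep_add ha hb
  zero_mem' := Rep_zero 0
  neg_mem' := fun ha => Rep_neg ha

/-- the ideal -/
def Is : Ideal (Bs w α) where
  carrier := {x | Rep w α 1 x.1}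
  add_mem' := fun ha hb => Rep_add ha hb
  zero_mem' := Rep_zero 1
  smul_mem' := fun c x hx => by
    have := Rep_mul (c := 0) (c' := 1) c.2 hx
    rwa [zero_add] at this

variable {w α}

theorem zpow_sum' {z : k} (hz : z ≠ 0) (s : Finset ι) (f : ι → ℤ) :
    z ^ (∑ i ∈ s, f i) = ∏ i ∈ s, z ^ f i := by
  classical
  induction s using Finset.induction_on with
  | empty => simp
  | insert a s ha ih => rw [Finset.sum_insert ha, Finset.prod_insert ha, zpow_add₀ hz, ih]

theorem not_one (hu : ∀ i, u i ≠ 0)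
    (H : ∀ G : MvPolynomial ι ℚ, aeval w G = 0 → ∀ z : k, z ≠ 0 →
      aeval (fun i => u i * z ^ α i) G = 0) : ¬ Rep w α 1 (1 : F) := by
  classical
  rintro ⟨d, G, h1, h2⟩
  have hinf : Infinite k := by
    have : CharZero k := algebraRat.charZero k
    infer_instance
  have h3 : ∀ z : k, z ≠ 0 → aeval (fun i => u i * z ^ α i) (monomial d (1 : ℚ) - G) = 0 := by
    refine H _ ?_
    rw [map_sub, aeval_mon, ← h1, one_mul, sub_self]
  have hmon : ∀ (z : k), z ≠ 0 → ∀ g : ι →₀ ℕ, mw (fun i => u i * z ^ α i) g =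
      mw u g * z ^ wt α g := by
    intro z hz g
    unfold mw wt
    simp only [mul_pow]
    rw [Finset.prod_mul_distrib]
    congr 1
    rw [zpow_sum' hz]
    refine Finset.prod_congr rfl fun i _ => ?_
    rw [← zpow_natCast, ← zpow_mul, mul_comm]
  let Qp : Polynomial k := Polynomial.C (mw u d) - ∑ g ∈ G.support,
    Polynomial.C (algebraMap ℚ k (coeff g G) * mw u g) * Polynomial.X ^ (wt α g - wt α d).toNat
  have hroot : ∀ z : k, z ≠ 0 → Qp.eval z = 0 := by
    intro z hz
    have h4 := h3 z hz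
    rw [map_sub, aeval_mon, hmon z hz, G.as_sum, map_sum] at h4
    have h5 : ∀ g ∈ G.support, aeval (fun i => u i * z ^ α i) (monomial g (coeff g G)) =
        algebraMap ℚ k (coeff g G) * mw u g * z ^ wt α g := by
      intro g _
      rw [aeval_monomial, Finsupp.prod_fintype _ _ (fun i => pow_zero _)]
      have := hmon z hz g
      unfold mw at this ⊢
      rw [this, mul_assoc]
    rw [Finset.sum_congr rfl h5] at h4
    have h6 : Qp.eval z = (mw u d * z ^ wt α d - ∑ g ∈ G.support,
        algebraMap ℚ k (coeff g G) * mw u g * z ^ wt α g) * z ^ (-wt α d) := by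
      show Polynomial.eval z (Polynomial.C (mw u d) - ∑ g ∈ G.support,
        Polynomial.C (algebraMap ℚ k (coeff g G) * mw u g) *
          Polynomial.X ^ (wt α g - wt α d).toNat) = _
      rw [Polynomial.eval_sub, Polynomial.eval_C, Polynomial.eval_finsetSum, sub_mul,
        Finset.sum_mul, mul_assoc, ← zpow_add₀ hz, add_neg_cancel, zpow_zero, mul_one]
      congr 1
      refine Finset.sum_congr rfl fun g hg => ?_
      have h7 := h2 g hg
      rw [Polynomial.eval_mul, Polynomial.eval_C, Polynomial.eval_pow, Polynomial.eval_X, mul_assoc,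
        mul_assoc, mul_assoc, ← zpow_add₀ hz, ← zpow_natCast, Int.toNat_of_nonneg (by omega),
        sub_eq_add_neg]
    rw [h6, h4, zero_mul]
  have hQ : Qp = 0 := by
    refine Polynomial.eq_zero_of_infinite_isRoot Qp ?_
    refine Set.Infinite.mono (s := {z : k | z ≠ 0}) (fun z hz => hroot z hz) ?_
    exact (Set.finite_singleton (0 : k)).infinite_compl
  have h0 : Qp.eval 0 = mw u d := by
    show Polynomial.eval 0 (Polynomial.C (mw u d) - ∑ g ∈ G.support,
        Polynomial.C (algebraMap ℚ k (coeff g G) * mw u g) *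
          Polynomial.X ^ (wt α g - wt α d).toNat) = _
    rw [Polynomial.eval_sub, Polynomial.eval_C, Polynomial.eval_finsetSum, Finset.sum_eq_zero,
      sub_zero]
    intro g hg
    have h7 := h2 g hg
    rw [Polynomial.eval_mul, Polynomial.eval_pow, Polynomial.eval_X, zero_pow, mul_zero]
    omega
  rw [hQ, Polynomial.eval_zero] at h0
  exact (Finset.prod_ne_zero_iff.2 fun i _ => pow_ne_zero _ (hu i)) h0.symm

end val

theorem val : ValStmt := by
  intro F k ι _ _ _ _ _ w u α hw hu H
  have hI : Is w α ≠ ⊤ := by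
    intro h
    have h1 : (1 : Bs w α) ∈ Is w α := by rw [h]; exact Submodule.mem_top
    exact not_one u hu H h1
  obtain ⟨O, hO1, hO2⟩ := Ideal.image_subset_nonunits_valuationSubring (Is w α) hI
  have hle : ∀ i j, α j ≤ α i → O.valuation (w i) ≤ O.valuation (w j) := by
    intro i j h
    have h1 : w i / w j ∈ Bs w α := Rep_ratio hw i j 0 (by rw [add_zero]; exact h)
    have h2 : O.valuation (w i / w j) ≤ 1 := (O.valuation_le_one_iff _).2 (hO1 h1)
    rw [map_div₀] at h2
    have h3 : 0 < O.valuation (w j) := by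
      rw [zero_lt_iff]
      exact (O.valuation.ne_zero_iff).2 (hw j)
    exact (div_le_one₀ h3).1 h2
  refine ⟨O, fun i j => ⟨fun h => le_antisymm (hle i j h.ge) (hle j i h.le), fun h => ?_⟩⟩
  have h1 : Rep w α 1 (w j / w i) := Rep_ratio hw j i 1 (by omega)
  have h2 : Rep w α 0 (w j / w i) := Rep_ratio hw j i 0 (by omega)
  have h3 : w j / w i ∈ O.nonunits := hO2 ⟨⟨w j / w i, h2⟩, h1, rfl⟩
  rw [ValuationSubring.mem_nonunits_iff, map_div₀] at h3
  have h4 : 0 < O.valuation (w i) := by
    rw [zero_lt_iff]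
    exact (O.valuation.ne_zero_iff).2 (hw i)
  exact (div_lt_one₀ h4).1 h3

end Pool.Agent.Y734.R.VAL
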